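import Mathlib
import Pool.Agent.Helper702.PlK

set_option autoImplicit false

/-!
# The palindromic length in free nilpotent groups of class four is not computable
-/

namespace Pool.Agent.Results.MP_e2af18_al.PalLengthUndecidable

open Pool.Agent.Helper702.Pl

/-- The free nilpotent group of rank `n` and class `r`: the free group modulo the term
`γ_{r+1}` of its lower central series (Mathlib numbers the whole group by `0`). -/
abbrev FreeNilpotent (n r : ℕ) : Type :=
  FreeGroup (Fin n) ⧸ (⊤ : Subgroup (FreeGroup (Fin n))).lowerCentralSeries r

/-- The element of the free nilpotent group represented by a word; the letter `(i, true)` is the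
generator with number `i` and the letter `(i, false)` is its inverse. -/
def value (n r : ℕ) (w : List (Fin n × Bool)) : FreeNilpotent n r :=
  QuotientGroup.mk (FreeGroup.mk w)

/-- An element is a palindrome if it is represented by a reduced word that coincides with its own
reversal. -/
def IsPalindrome {n r : ℕ} (g : FreeNilpotent n r) : Prop :=
  ∃ w : List (Fin n × Bool), FreeGroup.IsReduced w ∧ w.reverse = w ∧ value n r w = g

/-- The palindromic length: the least `k` such that the element is a product of `k` palindromes. -/
noncomputable def palLength {n r : ℕ} (g : FreeNilpotent n r) : ℕ :=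
  sInf {k | ∃ l : List (FreeNilpotent n r), l.length = k ∧ (∀ p ∈ l, IsPalindrome p) ∧ l.prod = g}

/-- Sanity check: letters evaluate to the generators and their inverses, and `value` is
multiplicative, so that `value` is the usual evaluation of words. -/
theorem value_spec (n r : ℕ) :
    (∀ i : Fin n, value n r [(i, true)] = QuotientGroup.mk (FreeGroup.of i)) ∧
    (∀ i : Fin n, value n r [(i, false)] = (value n r [(i, true)])⁻¹) ∧
    (∀ u v, value n r (u ++ v) = value n r u * value n r v) ∧ value n r [] = 1 := by
  refine ⟨fun i => rfl, fun i => rfl, fun u v => ?_, rfl⟩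
  unfold value
  rw [← FreeGroup.mul_mk, QuotientGroup.mk_mul]

lemma isPalindrome_one {n r : ℕ} : IsPalindrome (1 : FreeNilpotent n r) :=
  ⟨[], by simp [FreeGroup.IsReduced], rfl, rfl⟩

/-- Sanity check: every element is a product of palindromes, so the infimum defining the
palindromic length is attained. -/
theorem palLength_spec {n r : ℕ} (g : FreeNilpotent n r) :
    ∃ l : List (FreeNilpotent n r), l.length = palLength g ∧ (∀ p ∈ l, IsPalindrome p) ∧ l.prod = g := by
  have hne : {k | ∃ l : List (FreeNilpotent n r), l.length = k ∧ (∀ p ∈ l, IsPalindrome p) ∧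
      l.prod = g}.Nonempty := by
    obtain ⟨x, rfl⟩ := QuotientGroup.mk_surjective g
    refine ⟨_, x.toWord.map (fun a => value n r [a]), rfl, ?_, ?_⟩
    · intro p hp
      rw [List.mem_map] at hp
      obtain ⟨a, -, rfl⟩ := hp
      exact ⟨[a], by simp [FreeGroup.IsReduced], rfl, rfl⟩
    · have h : ∀ w : List (Fin n × Bool), (w.map (fun a => value n r [a])).prod = value n r w := by
        intro w
        induction w with
        | nil => rfl
        | cons a w ih =>
          rw [List.map_cons, List.prod_cons, ih, ← (value_spec n r).2.2.1]
          rfl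
      rw [h]
      unfold value
      rw [FreeGroup.mk_toWord]
  exact Nat.sInf_mem hne

lemma palLength_le_iff {n : ℕ} (k : ℕ) (w : List (Fin n × Bool)) :
    palLength (value n 4 w) ≤ k ↔ IsProd k (FreeGroup.mk w) := by
  constructor
  · intro h
    obtain ⟨l, h1, h2, h3⟩ := palLength_spec (value n 4 w)
    have h4 : ∀ p : FreeNilpotent n 4, IsPalindrome p → ∃ q : FreeGroup (Fin n), Pal q ∧ mk4 q = p := by
      rintro p ⟨v, -, hv, rfl⟩
      exact ⟨FreeGroup.mk v, pal_of_word hv, rfl⟩
    have h5 : ∀ l : List (FreeNilpotent n 4), (∀ p ∈ l, IsPalindrome p) →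
        ∃ l' : List (FreeGroup (Fin n)), l'.length = l.length ∧ (∀ p ∈ l', Pal p) ∧ mk4 l'.prod = l.prod := by
      intro l
      induction l with
      | nil => exact fun _ => ⟨[], rfl, by simp, rfl⟩
      | cons p l ih =>
        intro hl
        obtain ⟨l', e1, e2, e3⟩ := ih fun q hq => hl q (List.mem_cons_of_mem _ hq)
        obtain ⟨q, hq1, hq2⟩ := h4 p (hl p List.mem_cons_self)
        refine ⟨q :: l', by simp [e1], ?_, ?_⟩
        · intro q' hq'
          rcases List.mem_cons.1 hq' with rfl | hq'
          · exact hq1
          · exact e2 q' hq'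
        · rw [List.prod_cons, List.prod_cons, map_mul, e3, hq2]
    obtain ⟨l', e1, e2, e3⟩ := h5 l h2
    refine ⟨l' ++ List.replicate (k - l.length) 1, ?_, ?_, ?_⟩
    · rw [List.length_append, List.length_replicate, e1]
      omega
    · intro p hp
      rcases List.mem_append.1 hp with hp | hp
      · exact e2 p hp
      · rw [List.eq_of_mem_replicate hp]
        exact pal_one
    · rw [List.prod_append, List.prod_replicate, one_pow, mul_one, e3, h3]
      rfl
  · rintro ⟨l, h1, h2, h3⟩
    refine Nat.sInf_le ⟨l.map mk4, by simp [h1], ?_, ?_⟩
    · intro p hp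
      rw [List.mem_map] at hp
      obtain ⟨q, hq, rfl⟩ := hp
      refine ⟨q.toWord, FreeGroup.isReduced_toWord, word_of_pal (h2 q hq), ?_⟩
      unfold value
      rw [FreeGroup.mk_toWord]
      rfl
    · rw [← map_list_prod, h3]
      rfl

/-- **The palindromic length is not computable in free nilpotent groups of class four.** There is
`n₀` such that for all `n ≥ n₀` the function that sends a word in the generators and their inverses
to the palindromic length of the element of the free nilpotent group of rank `n` and class `4` which
it represents is not computable; more precisely, for some `k` it is undecidable whether a word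
represents a product of at most `k` palindromes. -/
theorem result : ∃ n₀ : ℕ, 2 ≤ n₀ ∧ ∀ n ≥ n₀,
    (¬ Computable fun w : List (Fin n × Bool) => palLength (value n 4 w)) ∧
    ∃ k : ℕ, ¬ ComputablePred fun w : List (Fin n × Bool) => palLength (value n 4 w) ≤ k := by
  obtain ⟨n₀, h₀, h⟩ := reduction haltSet_re
  refine ⟨n₀, h₀, fun n hn => ?_⟩
  obtain ⟨k, f, hf, hfk⟩ := h n hn
  have key : ¬ ComputablePred fun w : List (Fin n × Bool) => palLength (value n 4 w) ≤ k := by
    rintro ⟨inst, hc⟩
    apply haltSet_not_computable
    have h1 : haltSet = fun a => palLength (value n 4 (f a)) ≤ k := by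
      funext a
      rw [palLength_le_iff, hfk a]
    rw [h1]
    exact ⟨fun a => inst (f a), hc.comp hf.to_comp⟩
  refine ⟨fun hc => key ?_, k, key⟩
  refine ⟨fun w => Nat.decLe _ _, ?_⟩
  have h2 : Primrec fun m : ℕ => decide (m ≤ k) :=
    (Primrec.nat_le.comp Primrec.id (Primrec.const k)).decide
  exact h2.to_comp.comp hc

end Pool.Agent.Results.MP_e2af18_al.PalLengthUndecidable
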